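import Pool.Agent.Work.MP_768e99_chordal.Path

set_option autoImplicit false
set_option linter.unusedSectionVars false
set_option linter.unusedSimpArgs false
set_option linter.unusedVariables false

namespace Pool.Agent.Work.MP_768e99_chordal

open Pool.Agent.Work.MP_768e99_co

variable {V : Type*} {G : SimpleGraph V}

/-- `x` has a neighbour in `S` -/
def Tch (G : SimpleGraph V) (x : V) (S : Set V) : Prop := ∃ u ∈ S, G.Adj x u

lemma conn_union_adj {S T : Set V} (hS : Conn G S) (hT : Conn G T)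
    (h : ∃ x ∈ S, ∃ y ∈ T, G.Adj x y) : Conn G (S ∪ T) := by
  obtain ⟨x, hx, y, hy, hxy⟩ := h
  refine ⟨hS.1.mono Set.subset_union_left, ?_⟩
  rintro U hU ⟨t, ht⟩ hc
  have hSU : ∀ z ∈ S, z ∈ U → S ⊆ U := by
    intro z hz hzU
    have := hS.2 (U ∩ S) Set.inter_subset_right ⟨z, hzU, hz⟩ (by
      rintro a ⟨haU, haS⟩ b hb hab
      exact ⟨hc a haU b (Or.inl hb) hab, hb⟩)
    exact fun a ha => (this ha).1
  have hTU : ∀ z ∈ T, z ∈ U → T ⊆ U := by
    intro z hz hzU
    have := hT.2 (U ∩ T) Set.inter_subset_right ⟨z, hzU, hz⟩ (by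
      rintro a ⟨haU, haS⟩ b hb hab
      exact ⟨hc a haU b (Or.inr hb) hab, hb⟩)
    exact fun a ha => (this ha).1
  rcases hU ht with h | h
  · have h1 := hSU t h ht
    have h2 : y ∈ U := hc x (h1 hx) y (Or.inr hy) hxy
    exact Set.union_subset h1 (hTU y hy h2)
  · have h1 := hTU t h ht
    have h2 : x ∈ U := hc y (h1 hy) x (Or.inl hx) hxy.symm
    exact Set.union_subset (hSU x hx h2) h1

/-- The basic step: in a chordal graph, if the end `x` of an induced path touches `S`, the end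
`y` touches `T`, where `S`, `T` are connected and adjacent, and nothing else of the path
touches `T`, then `y` touches `S`. -/
lemma push [Finite V] (hG : IsChordal G) {S T K : Set V} (hS : Conn G S) (hT : Conn G T)
    (hST : Disjoint S T) (hadj : ∃ x ∈ S, ∃ y ∈ T, G.Adj x y)
    (hKS : Disjoint K S) (hKT : Disjoint K T) {m : ℕ} {f : ℕ → V}
    (fK : ∀ i ≤ m, f i ∈ K)
    (ff : ∀ i j, i < j → j ≤ m → (G.Adj (f i) (f j) ↔ j = i + 1))
    (fi : ∀ i j, i < j → j ≤ m → f i ≠ f j)
    (f0 : Tch G (f 0) S) (fm : Tch G (f m) T) (fT : ∀ i < m, ¬ Tch G (f i) T) :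
    Tch G (f m) S := by
  classical
  by_contra hcon
  -- last index touching S
  let L : Finset ℕ := (Finset.range (m + 1)).filter (fun i => Tch G (f i) S)
  have hL : L.Nonempty := ⟨0, by simp [L, f0]⟩
  set l := L.max' hL with hl
  have hlL : l ∈ L := L.max'_mem hL
  have hlm : l < m := by
    have h1 : l < m + 1 := by
      have := (Finset.mem_filter.1 hlL).1
      simpa using this
    have h2 : l ≠ m := by
      intro h
      have := (Finset.mem_filter.1 hlL).2
      rw [h] at this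
      exact hcon this
    omega
  have hlS : Tch G (f l) S := (Finset.mem_filter.1 hlL).2
  have hlast : ∀ i, l < i → i ≤ m → ¬ Tch G (f i) S := by
    intro i hi him hiS
    have : i ∈ L := by simp only [L, Finset.mem_filter, Finset.mem_range]; exact ⟨by omega, hiS⟩
    have := L.le_max' i this
    omega
  have hD : Conn G (S ∪ T) := conn_union_adj hS hT hadj
  obtain ⟨a, haS, hla⟩ := hlS
  obtain ⟨b, hbT, hmb⟩ := fm
  obtain ⟨n, g, ⟨g1, g2, g3, g4⟩, gA, gB, gg, gi⟩ := exists_geodesic (G := G) (D := S ∪ T)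
    (A := {z | G.Adj (f l) z}) (B := {z | G.Adj (f m) z}) hD
    ⟨a, hla, Or.inl haS⟩ ⟨b, hmb, Or.inr hbT⟩
  have hS' : ∀ i, l ≤ i → i ≤ m → ∀ z ∈ S ∪ T, G.Adj (f i) z → (i = l ∧ z ∈ S) ∨ (i = m ∧ z ∈ T) := by
    intro i hi him z hz hadj'
    rcases hz with hz | hz
    · left
      refine ⟨?_, hz⟩
      by_contra hne
      exact hlast i (by omega) him ⟨z, hz, hadj'⟩
    · right
      refine ⟨?_, hz⟩
      by_contra hne
      exact fT i (by omega) ⟨z, hz, hadj'⟩
  have hn : 1 ≤ n := by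
    by_contra hn
    have hn0 : n = 0 := by omega
    subst hn0
    rcases hS' l le_rfl hlm.le _ (g3 0 le_rfl) g1 with ⟨_, h1⟩ | ⟨h1, _⟩
    · rcases hS' m hlm.le le_rfl _ (g3 0 le_rfl) g2 with ⟨h2, _⟩ | ⟨_, h2⟩
      · omega
      · exact Set.disjoint_left.1 hST h1 h2
    · omega
  refine no_long_cycle hG (m := m - l) (n := n) (by omega) hn (fun i => f (l + i)) g ?_ ?_ gg gi ?_ ?_
  · intro i j hij hj
    rw [ff _ _ (by omega) (by omega)]
    omega
  · intro i j hij hj
    exact fi _ _ (by omega) (by omega)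
  · intro i j hi hj
    constructor
    · intro h
      rcases hS' (l + i) (by omega) (by omega) _ (g3 j hj) h with ⟨h1, h2⟩ | ⟨h1, h2⟩
      · left
        have hi0 : i = 0 := by omega
        refine ⟨hi0, ?_⟩
        by_contra hj0
        subst hi0
        exact gA j (by omega) hj h
      · right
        refine ⟨by omega, ?_⟩
        by_contra hjn
        rw [h1] at h
        exact gB j (by omega) h
    · rintro (⟨rfl, rfl⟩ | ⟨rfl, rfl⟩)
      · exact g1
      · have : l + (m - l) = m := by omega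
        simp only [this]; exact g2
  · intro i j hi hj heq
    have h1 : f (l + i) ∈ K := fK _ (by omega)
    have heq' : f (l + i) = g j := heq
    rw [heq'] at h1
    rcases g3 j hj with h2 | h2
    · exact Set.disjoint_left.1 hKS h1 h2
    · exact Set.disjoint_left.1 hKT h1 h2

/-- Helly property of connected sets in a chordal graph. -/
theorem helly [Finite V] (hG : IsChordal G) {ι : Type*} [Finite ι] (B : ι → Set V) (K : Set V)
    (hK : Conn G K) (hB : ∀ i, (B i).Nonempty → Conn G (B i))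
    (hdisj : ∀ i j, i ≠ j → Disjoint (B i) (B j))
    (hadj : ∀ i j, i ≠ j → (B i).Nonempty → (B j).Nonempty → ∃ x ∈ B i, ∃ y ∈ B j, G.Adj x y)
    (hKB : ∀ i, Disjoint K (B i)) (hKadj : ∀ i, (B i).Nonempty → ∃ x ∈ K, Tch G x (B i)) :
    ∃ x ∈ K, ∀ i, (B i).Nonempty → Tch G x (B i) := by
  classical
  let w : V → ℕ := fun x => {i | (B i).Nonempty ∧ Tch G x (B i)}.ncard
  obtain ⟨x, hxK, hx⟩ : ∃ x ∈ K, ∀ y ∈ K, w y ≤ w x :=
    Set.exists_max_image K w (Set.toFinite K) hK.1
  refine ⟨x, hxK, ?_⟩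
  intro j hj
  by_contra hxj
  obtain ⟨n, f, ⟨f1, f2, f3, f4⟩, fA, fB, ff, fi⟩ := exists_geodesic (G := G) (D := K)
    (A := {x}) (B := {z | Tch G z (B j)}) hK ⟨x, rfl, hxK⟩ (by
      obtain ⟨z, hz, hz'⟩ := hKadj j hj
      exact ⟨z, hz', hz⟩)
  have f1' : f 0 = x := f1
  have f2' : Tch G (f n) (B j) := f2
  have hlt : {i | (B i).Nonempty ∧ Tch G x (B i)} ⊂ {i | (B i).Nonempty ∧ Tch G (f n) (B i)} := by
    refine ⟨?_, ?_⟩
    · rintro i ⟨hi, hxi⟩
      have hij : i ≠ j := by rintro rfl; exact hxj hxi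
      refine ⟨hi, ?_⟩
      exact push hG (hB i hi) (hB j hj) (hdisj i j hij) (hadj i j hij hi hj) (hKB i) (hKB j)
        f3 ff fi (by rw [f1']; exact hxi) f2' (fun i hi h => fB i hi h)
    · intro h
      exact hxj (h ⟨hj, f2'⟩).2
  have := Set.ncard_lt_ncard hlt (Set.toFinite _)
  have := hx (f n) (f3 n le_rfl)
  simp only [w] at this
  omega

end Pool.Agent.Work.MP_768e99_chordal
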