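import Pool.Agent.Work.MP_768e99_chordal.Helly

set_option autoImplicit false
set_option linter.unusedSectionVars false
set_option linter.unusedSimpArgs false
set_option linter.unusedVariables false

namespace Pool.Agent.Work.MP_768e99_chordal

open Pool.Agent.Work.MP_768e99_co

variable {V : Type*} {G : SimpleGraph V}

/-- `k` pairwise adjacent connected sets and `d + 1` further vertices adjacent to all of them
contain `K_{r,s}` when `k + d + 1 = r + s`, `r ≤ k`. -/
lemma minor_of_roots {k d r s : ℕ} (hrk : r ≤ k) (hk : k + d + 1 = r + s) (S : Fin k → Set V)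
    (hS : ∀ i, Conn G (S i)) (hdisj : ∀ i j, i ≠ j → Disjoint (S i) (S j))
    (hadj : ∀ i j, i ≠ j → ∃ x ∈ S i, ∃ y ∈ S j, G.Adj x y)
    (y : Fin (d + 1) → V) (hy : Function.Injective y) (hyS : ∀ j i, y j ∉ S i)
    (hyadj : ∀ j i, Tch G (y j) (S i)) : HasBicliqueMinor G r s := by
  by_contra hcon
  apply not_KM_of_not_minor hcon
  let A : Fin r → Set V := fun i => S ⟨i.val, by omega⟩
  let B : Fin s → Set V := fun j => if h : j.val < k - r then S ⟨r + j.val, by omega⟩ else
    {y ⟨j.val - (k - r), by omega⟩}
  refine ⟨A, B, fun _ => Set.subset_univ _, fun _ => Set.subset_univ _, fun i => hS _, ?_, ?_, ?_,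
    ?_, ?_⟩
  · intro j
    by_cases h : j.val < k - r
    · simpa only [B, h, dif_pos] using hS _
    · simpa only [B, h, dif_neg, not_false_eq_true] using Conn.singleton _
  · intro i i' hii
    apply hdisj
    intro h
    apply hii
    ext
    simpa using congrArg Fin.val h
  · intro j j' hjj
    have hne : j.val ≠ j'.val := fun h => hjj (Fin.ext h)
    by_cases h : j.val < k - r
    · by_cases h' : j'.val < k - r
      · simp only [B, h, h', dif_pos]
        apply hdisj
        intro he
        apply hne
        have := congrArg Fin.val he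
        simp only at this
        omega
      · simp only [B, h, h', dif_pos, dif_neg, not_false_eq_true]
        rw [Set.disjoint_singleton_right]
        exact hyS _ _
    · by_cases h' : j'.val < k - r
      · simp only [B, h, h', dif_pos, dif_neg, not_false_eq_true]
        rw [Set.disjoint_singleton_left]
        exact hyS _ _
      · simp only [B, h, h', dif_neg, not_false_eq_true]
        rw [Set.disjoint_singleton]
        intro he
        apply hne
        have := congrArg Fin.val (hy he)
        simp only at this
        omega
  · intro i j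
    by_cases h : j.val < k - r
    · simp only [A, B, h, dif_pos]
      apply hdisj
      intro he
      have := congrArg Fin.val he
      simp only at this
      omega
    · simp only [A, B, h, dif_neg, not_false_eq_true]
      rw [Set.disjoint_singleton_right]
      exact hyS _ _
  · intro i j
    by_cases h : j.val < k - r
    · simp only [A, B, h, dif_pos]
      apply hadj
      intro he
      have := congrArg Fin.val he
      simp only at this
      omega
    · simp only [A, B, h, dif_neg, not_false_eq_true]
      obtain ⟨u, hu, hadj'⟩ := hyadj ⟨j.val - (k - r), by omega⟩ ⟨i.val, by omega⟩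
      exact ⟨u, hu, _, rfl, hadj'.symm⟩

/-- the connected component of `x` in `G[D]` -/
inductive Cmp (G : SimpleGraph V) (D : Set V) (x : V) : V → Prop
  | base : Cmp G D x x
  | step (y z : V) : Cmp G D x y → z ∈ D → G.Adj y z → Cmp G D x z

lemma cmp_sub {D : Set V} {x : V} (hx : x ∈ D) : {y | Cmp G D x y} ⊆ D := by
  intro y hy
  have hy' : Cmp G D x y := hy
  induction hy' with
  | base => exact hx
  | step y z h hz hadj ih => exact hz

lemma cmp_conn {D : Set V} {x : V} : Conn G {y | Cmp G D x y} := by
  refine ⟨⟨x, Cmp.base⟩, ?_⟩
  rintro T hT ⟨t, ht⟩ hc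
  have key : ∀ z, Cmp G D x z → z ∈ T → x ∈ T := by
    intro z hz
    induction hz with
    | base => exact id
    | step y z h hz hadj ih =>
      intro hzT
      exact ih (hc z hzT y h hadj.symm)
  have hx : x ∈ T := key t (hT ht) ht
  intro z hz
  have hz' : Cmp G D x z := hz
  induction hz' with
  | base => exact hx
  | step y z h hz'' hadj ih => exact hc y (ih h) z hz hadj

structure Roots (G : SimpleGraph V) {k : ℕ} (B : Fin k → Set V) : Prop where
  conn : ∀ i, (B i).Nonempty → Conn G (B i)
  disj : ∀ i j, i ≠ j → Disjoint (B i) (B j)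
  adj : ∀ i j, i ≠ j → (B i).Nonempty → (B j).Nonempty → ∃ x ∈ B i, ∃ y ∈ B j, G.Adj x y

/-- `C` has a colouring avoiding the colours of adjacent roots with defect at most `d` -/
def Good (G : SimpleGraph V) (k d : ℕ) (C : Set V) (B : Fin k → Set V) : Prop :=
  ∃ φ : V → Fin k, (∀ x ∈ C, ∀ i, Tch G x (B i) → φ x ≠ i) ∧
    ∀ x ∈ C, {y | y ∈ C ∧ G.Adj x y ∧ φ y = φ x}.ncard ≤ d

lemma nr_le {k : ℕ} (B : Fin k → Set V) : {i | (B i).Nonempty}.ncard ≤ k := by
  have := Set.ncard_le_ncard (Set.subset_univ {i | (B i).Nonempty}) (Set.toFinite _)
  rw [Set.ncard_univ, Nat.card_eq_fintype_card, Fintype.card_fin] at this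
  exact this

/-- adding a vertex that touches all roots as a new root -/
lemma good_add [Finite V] {k d : ℕ} {C : Set V} {B : Fin k → Set V} {x : V} {i : Fin k}
    (hCB : ∀ i, Disjoint C (B i)) (hx : x ∈ C) (hi : B i = ∅)
    (h : Good G k d (C \ {x}) (Function.update B i {x})) : Good G k d C B := by
  classical
  obtain ⟨φ, h1, h2⟩ := h
  have hnb : ∀ y ∈ C, G.Adj x y → φ y ≠ i := by
    intro y hy hxy
    refine h1 y ⟨hy, fun e => G.ne_of_adj hxy (by simpa using e.symm)⟩ i ⟨x, ?_, hxy.symm⟩
    rw [Function.update_self]; rfl
  refine ⟨Function.update φ x i, ?_, ?_⟩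
  · intro z hz l hl
    have hli : l ≠ i := by
      rintro rfl
      obtain ⟨u, hu, _⟩ := hl
      rw [hi] at hu; exact hu
    by_cases hzx : z = x
    · subst hzx
      rw [Function.update_self]; exact hli.symm
    · rw [Function.update_of_ne hzx]
      refine h1 z ⟨hz, hzx⟩ l ?_
      rw [Function.update_of_ne hli]; exact hl
  · intro z hz
    by_cases hzx : z = x
    · subst hzx
      have : {y | y ∈ C ∧ G.Adj z y ∧ Function.update φ z i y = Function.update φ z i z} = ∅ := by
        ext y
        simp only [Set.mem_setOf_eq, Set.mem_empty_iff_false, iff_false, not_and]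
        intro hy hzy hcol
        rw [Function.update_self, Function.update_of_ne hzy.ne'] at hcol
        exact hnb y hy hzy hcol
      rw [this]; simp
    · refine (Set.ncard_le_ncard ?_ (Set.toFinite _)).trans (h2 z ⟨hz, hzx⟩)
      rintro y ⟨hy, hzy, hcol⟩
      rw [Function.update_of_ne hzx] at hcol
      by_cases hyx : y = x
      · subst hyx
        rw [Function.update_self] at hcol
        exact absurd hcol.symm (hnb z hz hzy.symm)
      · rw [Function.update_of_ne hyx] at hcol
        exact ⟨⟨hy, hyx⟩, hzy, hcol⟩

/-- all roots but one are present and every vertex touches all of them -/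
lemma good_full [Finite V] {k d r s : ℕ} (hrk : r ≤ k) (hk : k + d + 1 = r + s)
    (hm : ¬ HasBicliqueMinor G r s) {C : Set V} {B : Fin k → Set V} (hR : Roots G B)
    (hCB : ∀ i, Disjoint C (B i)) {t : Fin k} (ht : B t = ∅)
    (hne : ∀ i, i ≠ t → (B i).Nonempty)
    (hF : ∀ x ∈ C, ∀ i, (B i).Nonempty → Tch G x (B i)) : Good G k d C B := by
  classical
  refine ⟨fun _ => t, ?_, ?_⟩
  · rintro x hx i ⟨u, hu, _⟩ rfl
    rw [ht] at hu; exact hu
  · intro x hx
    by_contra hcon
    push Not at hcon
    apply hm
    set N : Finset V := (Set.toFinite {y | y ∈ C ∧ G.Adj x y ∧ t = t}).toFinset with hN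
    have hNc : d + 1 ≤ N.card := by
      rw [hN, ← Set.ncard_eq_toFinset_card]; exact hcon
    obtain ⟨T, hT, hTc⟩ := Finset.exists_subset_card_eq hNc
    have e : Fin (d + 1) ≃ T := (Fintype.equivFinOfCardEq (by simpa using hTc)).symm
    have hmem : ∀ j, (e j : V) ∈ C ∧ G.Adj x (e j) := by
      intro j
      have := hT (e j).2
      rw [hN, Set.Finite.mem_toFinset] at this
      exact ⟨this.1, this.2.1⟩
    refine minor_of_roots hrk hk (Function.update B t {x}) ?_ ?_ ?_ (fun j => (e j : V)) ?_ ?_ ?_
    · intro i
      by_cases h : i = t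
      · subst h; rw [Function.update_self]; exact Conn.singleton x
      · rw [Function.update_of_ne h]; exact hR.conn i (hne i h)
    · intro i j hij
      by_cases h : i = t
      · subst h
        rw [Function.update_self, Function.update_of_ne hij.symm, Set.disjoint_singleton_left]
        exact Set.disjoint_left.1 (hCB j) hx
      · by_cases h' : j = t
        · subst h'
          rw [Function.update_self, Function.update_of_ne hij, Set.disjoint_singleton_right]
          exact Set.disjoint_left.1 (hCB i) hx
        · rw [Function.update_of_ne h, Function.update_of_ne h']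
          exact hR.disj i j hij
    · intro i j hij
      by_cases h : i = t
      · subst h
        rw [Function.update_self, Function.update_of_ne hij.symm]
        obtain ⟨u, hu, hxu⟩ := hF x hx j (hne j hij.symm)
        exact ⟨x, rfl, u, hu, hxu⟩
      · by_cases h' : j = t
        · subst h'
          rw [Function.update_self, Function.update_of_ne hij]
          obtain ⟨u, hu, hxu⟩ := hF x hx i (hne i hij)
          exact ⟨u, hu, x, rfl, hxu.symm⟩
        · rw [Function.update_of_ne h, Function.update_of_ne h']
          exact hR.adj i j hij (hne i h) (hne j h')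
    · intro a b hab
      exact e.injective (Subtype.ext hab)
    · intro j i
      by_cases h : i = t
      · subst h
        rw [Function.update_self]
        exact fun hh => (hmem j).2.ne' hh
      · rw [Function.update_of_ne h]
        exact Set.disjoint_left.1 (hCB i) (hmem j).1
    · intro j i
      by_cases h : i = t
      · subst h
        rw [Function.update_self]
        exact ⟨x, rfl, (hmem j).2.symm⟩
      · rw [Function.update_of_ne h]
        exact hF _ (hmem j).1 i (hne i h)

theorem good_main [Finite V] (hG : IsChordal G) {k d r s : ℕ} (hrk : r ≤ k)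
    (hk : k + d + 1 = r + s) (hm : ¬ HasBicliqueMinor G r s) :
    ∀ (n : ℕ) (C : Set V) (B : Fin k → Set V),
      C.ncard * (k + 1) + {i | (B i).Nonempty}.ncard ≤ n → Roots G B →
      (∀ i, Disjoint C (B i)) → (∃ i, B i = ∅) → Good G k d C B := by
  classical
  intro n
  induction n with
  | zero =>
    intro C B hC _ _ hemp
    have hC0 : C = ∅ := by
      have h1 : C.ncard * (k + 1) = 0 := by omega
      have h2 : C.ncard = 0 := by
        rcases Nat.mul_eq_zero.1 h1 with h | h
        · exact h
        · omega
      rwa [Set.ncard_eq_zero (Set.toFinite _)] at h2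
    subst hC0
    obtain ⟨i, _⟩ := hemp
    exact ⟨fun _ => i, by simp, by simp⟩
  | succ n ih =>
    intro C B hcard hR hCB hemp
    by_cases hC0 : C = ∅
    · subst hC0
      obtain ⟨i, _⟩ := hemp
      exact ⟨fun _ => i, by simp, by simp⟩
    have hCne : C.Nonempty := Set.nonempty_iff_ne_empty.2 hC0
    set F : Set V := {x | x ∈ C ∧ ∀ i, (B i).Nonempty → Tch G x (B i)} with hF
    have hFC : F ⊆ C := fun x hx => hx.1
    -- step (a)
    have stepA : F.Nonempty → (∃ i j, i ≠ j ∧ B i = ∅ ∧ B j = ∅) → Good G k d C B := by
      rintro ⟨x, hxC, hx⟩ ⟨i, j, hij, hi, hj⟩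
      refine good_add hCB hxC hi (ih _ _ ?_ ?_ ?_ ⟨j, ?_⟩)
      · have h1 : (C \ {x}).ncard + 1 = C.ncard :=
          Set.ncard_diff_singleton_add_one hxC (Set.toFinite _)
        have h2 : {l | (Function.update B i {x} l).Nonempty}.ncard ≤
            {l | (B l).Nonempty}.ncard + 1 := by
          have : {l | (Function.update B i {x} l).Nonempty} ⊆ insert i {l | (B l).Nonempty} := by
            intro l hl
            by_cases h : l = i
            · exact Or.inl h
            · right
              have hl' : (Function.update B i {x} l).Nonempty := hl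
              rw [Function.update_of_ne h] at hl'
              exact hl'
          refine (Set.ncard_le_ncard this (Set.toFinite _)).trans ?_
          exact Set.ncard_insert_le _ _
        have h3 : 1 ≤ k := by have := i.2; omega
        rw [← h1] at hcard
        nlinarith
      · constructor
        · intro l hl
          by_cases h : l = i
          · subst h; rw [Function.update_self]; exact Conn.singleton x
          · rw [Function.update_of_ne h] at hl ⊢; exact hR.conn l hl
        · intro l l' hll
          by_cases h : l = i
          · subst h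
            rw [Function.update_self, Function.update_of_ne hll.symm,
              Set.disjoint_singleton_left]
            exact Set.disjoint_left.1 (hCB l') hxC
          · by_cases h' : l' = i
            · subst h'
              rw [Function.update_self, Function.update_of_ne hll, Set.disjoint_singleton_right]
              exact Set.disjoint_left.1 (hCB l) hxC
            · rw [Function.update_of_ne h, Function.update_of_ne h']
              exact hR.disj l l' hll
        · intro l l' hll hl hl'
          by_cases h : l = i
          · subst h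
            rw [Function.update_of_ne hll.symm] at hl'
            rw [Function.update_self, Function.update_of_ne hll.symm]
            obtain ⟨u, hu, hxu⟩ := hx l' hl'
            exact ⟨x, rfl, u, hu, hxu⟩
          · by_cases h' : l' = i
            · subst h'
              rw [Function.update_of_ne hll] at hl
              rw [Function.update_self, Function.update_of_ne hll]
              obtain ⟨u, hu, hxu⟩ := hx l hl
              exact ⟨u, hu, x, rfl, hxu.symm⟩
            · rw [Function.update_of_ne h] at hl
              rw [Function.update_of_ne h'] at hl'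
              rw [Function.update_of_ne h, Function.update_of_ne h']
              exact hR.adj l l' hll hl hl'
      · intro l
        by_cases h : l = i
        · subst h; rw [Function.update_self]; simp
        · rw [Function.update_of_ne h]
          exact (hCB l).mono_left Set.sdiff_subset
      · rw [Function.update_of_ne hij.symm]; exact hj
    obtain ⟨t, ht⟩ := hemp
    have hone : ¬ (∃ i j, i ≠ j ∧ B i = ∅ ∧ B j = ∅) → ∀ i, i ≠ t → (B i).Nonempty := by
      intro h2 i hi
      by_contra h
      exact h2 ⟨i, t, hi, Set.not_nonempty_iff_eq_empty.1 h, ht⟩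
    by_cases hFC' : F = C
    · by_cases h2 : ∃ i j, i ≠ j ∧ B i = ∅ ∧ B j = ∅
      · exact stepA (by rw [hFC']; exact hCne) h2
      · refine good_full hrk hk hm hR hCB ht (hone h2) ?_
        intro x hx
        rw [← hFC'] at hx
        exact hx.2
    by_cases h2 : F.Nonempty ∧ ∃ i j, i ≠ j ∧ B i = ∅ ∧ B j = ∅
    · exact stepA h2.1 h2.2
    have hone' : F.Nonempty → ∀ i, i ≠ t → (B i).Nonempty :=
      fun hF1 => hone fun h3 => h2 ⟨hF1, h3⟩
    obtain ⟨z0, hz0C, hz0F⟩ : ∃ z ∈ C, z ∉ F := by
      by_contra h
      push Not at h
      exact hFC' (Set.Subset.antisymm hFC h)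
    set Z : Set V := {y | Cmp G (C \ F) z0 y} with hZ
    have hZsub : Z ⊆ C \ F := cmp_sub ⟨hz0C, hz0F⟩
    have hZC : Z ⊆ C := fun x hx => (hZsub hx).1
    have hZF : ∀ x ∈ Z, x ∉ F := fun x hx => (hZsub hx).2
    have hZconn : Conn G Z := cmp_conn
    have hZcl : ∀ y ∈ Z, ∀ w ∈ C, w ∉ F → G.Adj y w → w ∈ Z :=
      fun y hy w hw hwF hyw => Cmp.step y w hy ⟨hw, hwF⟩ hyw
    obtain ⟨j, hj, hZj⟩ : ∃ j, (B j).Nonempty ∧ ∀ y ∈ Z, ¬ Tch G y (B j) := by
      by_contra hcon
      push Not at hcon
      obtain ⟨x, hxZ, hx⟩ := helly hG B Z hZconn hR.conn hR.disj hR.adj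
        (fun i => (hCB i).mono_left hZC) hcon
      exact hZF x hxZ ⟨hZC hxZ, hx⟩
    have hjt : j ≠ t := by
      rintro rfl
      rw [ht] at hj
      exact Set.not_nonempty_empty hj
    by_cases hZC' : Z = C
    · -- drop the root `j`
      obtain ⟨φ, h3, h4⟩ := ih C (Function.update B j ∅) (by
          have : {i | (B i).Nonempty} = insert j {i | (Function.update B j ∅ i).Nonempty} := by
            ext i
            by_cases h : i = j
            · subst h; simpa using hj
            · simp [h, Function.update_of_ne]
          have hnot : j ∉ {i | (Function.update B j ∅ i).Nonempty} := by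
            simp
          rw [this, Set.ncard_insert_of_notMem hnot (Set.toFinite _)] at hcard
          omega) (by
          constructor
          · intro l hl
            by_cases h : l = j
            · subst h; rw [Function.update_self] at hl; exact absurd hl Set.not_nonempty_empty
            · rw [Function.update_of_ne h] at hl ⊢; exact hR.conn l hl
          · intro l l' hll
            by_cases h : l = j
            · subst h; rw [Function.update_self]; exact Set.empty_disjoint _
            · by_cases h' : l' = j
              · subst h'; rw [Function.update_self]; exact Set.disjoint_empty _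
              · rw [Function.update_of_ne h, Function.update_of_ne h']
                exact hR.disj l l' hll
          · intro l l' hll hl hl'
            by_cases h : l = j
            · subst h; rw [Function.update_self] at hl; exact absurd hl Set.not_nonempty_empty
            · by_cases h' : l' = j
              · subst h'; rw [Function.update_self] at hl'
                exact absurd hl' Set.not_nonempty_empty
              · rw [Function.update_of_ne h] at hl ⊢
                rw [Function.update_of_ne h'] at hl' ⊢
                exact hR.adj l l' hll hl hl') (by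
          intro l
          by_cases h : l = j
          · subst h; rw [Function.update_self]; exact Set.disjoint_empty _
          · rw [Function.update_of_ne h]; exact hCB l) ⟨j, Function.update_self _ _ _⟩
      refine ⟨φ, ?_, h4⟩
      intro x hx i hi
      have hij : i ≠ j := by
        rintro rfl
        exact hZj x (by rw [hZC']; exact hx) hi
      exact h3 x hx i (by rw [Function.update_of_ne hij]; exact hi)
    -- split off `Z`
    have hZlt : Z.ncard + 1 ≤ C.ncard :=
      Set.ncard_lt_ncard (HasSubset.Subset.ssubset_of_ne hZC hZC') (Set.toFinite _)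
    have hnr := nr_le B
    obtain ⟨φ1, a1, a2⟩ := ih (C \ Z) B (by
        have : (C \ Z).ncard + 1 ≤ C.ncard := by
          refine Set.ncard_lt_ncard ⟨Set.sdiff_subset, ?_⟩ (Set.toFinite _)
          intro h
          exact (h hz0C).2 Cmp.base
        nlinarith) hR (fun i => (hCB i).mono_left Set.sdiff_subset) ⟨t, ht⟩
    let B2 : Fin k → Set V := fun l => if l = j then ∅ else if l = t then B j ∪ F else B l
    have B2j : B2 j = ∅ := by simp [B2]
    have B2t : B2 t = B j ∪ F := by simp [B2, hjt.symm]
    have B2o : ∀ l, l ≠ j → l ≠ t → B2 l = B l := fun l h h' => by simp [B2, h, h']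
    have hR2 : Roots G B2 := by
      constructor
      · intro l hl
        by_cases h : l = j
        · subst h; rw [B2j] at hl; exact absurd hl Set.not_nonempty_empty
        · by_cases h' : l = t
          · subst h'; rw [B2t]
            exact (hR.conn j hj).union (fun x hx => hx.2 j hj)
          · rw [B2o l h h'] at hl ⊢; exact hR.conn l hl
      · intro l l' hll
        by_cases h : l = j
        · subst h; rw [B2j]; exact Set.empty_disjoint _
        by_cases g : l' = j
        · subst g; rw [B2j]; exact Set.disjoint_empty _
        by_cases h' : l = t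
        · subst h'
          rw [B2t, B2o l' g hll.symm, Set.disjoint_union_left]
          exact ⟨hR.disj j l' (Ne.symm g), (hCB l').mono_left hFC⟩
        by_cases g' : l' = t
        · subst g'
          rw [B2t, B2o l h h', Set.disjoint_union_right]
          exact ⟨hR.disj l j h, ((hCB l).mono_left hFC).symm⟩
        rw [B2o l h h', B2o l' g g']
        exact hR.disj l l' hll
      · intro l l' hll hl hl'
        by_cases h : l = j
        · subst h; rw [B2j] at hl; exact absurd hl Set.not_nonempty_empty
        by_cases g : l' = j
        · subst g; rw [B2j] at hl'; exact absurd hl' Set.not_nonempty_empty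
        by_cases h' : l = t
        · subst h'
          rw [B2o l' g hll.symm] at hl'
          rw [B2t, B2o l' g hll.symm]
          obtain ⟨x, hx, y, hy, hxy⟩ := hR.adj j l' (Ne.symm g) hj hl'
          exact ⟨x, Or.inl hx, y, hy, hxy⟩
        by_cases g' : l' = t
        · subst g'
          rw [B2o l h h'] at hl
          rw [B2t, B2o l h h']
          obtain ⟨x, hx, y, hy, hxy⟩ := hR.adj l j h hl hj
          exact ⟨x, hx, y, Or.inl hy, hxy⟩
        rw [B2o l h h'] at hl ⊢
        rw [B2o l' g g'] at hl' ⊢
        exact hR.adj l l' hll hl hl'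
    obtain ⟨φ2, b1, b2⟩ := ih Z B2 (by
        have := nr_le B2
        nlinarith) hR2 (by
        intro l
        by_cases h : l = j
        · subst h; rw [B2j]; exact Set.disjoint_empty _
        by_cases h' : l = t
        · subst h'
          rw [B2t, Set.disjoint_union_right]
          exact ⟨(hCB j).mono_left hZC, Set.disjoint_left.2 hZF⟩
        rw [B2o l h h']
        exact (hCB l).mono_left hZC) ⟨j, B2j⟩
    -- vertices of `F` have colour `t`, their neighbours in `Z` do not
    have hFt : ∀ x ∈ F, φ1 x = t := by
      intro x hx
      by_contra hne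
      have h5 := hone' ⟨x, hx⟩ (φ1 x) hne
      exact a1 x ⟨hx.1, fun h => hZF x h hx⟩ (φ1 x) (hx.2 _ h5) rfl
    have hZt : ∀ z ∈ Z, ∀ x ∈ C, x ∉ Z → G.Adj z x → x ∈ F ∧ φ2 z ≠ t := by
      intro z hz x hx hxZ hzx
      have hxF : x ∈ F := by
        by_contra h
        exact hxZ (hZcl z hz x hx h hzx)
      refine ⟨hxF, b1 z hz t ?_⟩
      rw [B2t]
      exact ⟨x, Or.inr hxF, hzx⟩
    refine ⟨fun x => if x ∈ Z then φ2 x else φ1 x, ?_, ?_⟩
    · intro x hx i hi
      by_cases hxZ : x ∈ Z
      · simp only [hxZ, if_true]
        have hij : i ≠ j := by rintro rfl; exact hZj x hxZ hi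
        have hit : i ≠ t := by
          rintro rfl
          obtain ⟨u, hu, _⟩ := hi
          rw [ht] at hu; exact hu
        exact b1 x hxZ i (by rw [B2o i hij hit]; exact hi)
      · simp only [hxZ, if_false]
        exact a1 x ⟨hx, hxZ⟩ i hi
    · intro x hx
      by_cases hxZ : x ∈ Z
      · refine (Set.ncard_le_ncard ?_ (Set.toFinite _)).trans (b2 x hxZ)
        rintro y ⟨hy, hxy, hcol⟩
        by_cases hyZ : y ∈ Z
        · simp only [hxZ, hyZ, if_true] at hcol
          exact ⟨hyZ, hxy, hcol⟩
        · simp only [hxZ, hyZ, if_true, if_false] at hcol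
          obtain ⟨h5, h6⟩ := hZt x hxZ y hy hyZ hxy
          rw [hFt y h5] at hcol
          exact absurd hcol.symm h6
      · refine (Set.ncard_le_ncard ?_ (Set.toFinite _)).trans (a2 x ⟨hx, hxZ⟩)
        rintro y ⟨hy, hxy, hcol⟩
        by_cases hyZ : y ∈ Z
        · simp only [hxZ, hyZ, if_true, if_false] at hcol
          obtain ⟨h5, h6⟩ := hZt y hyZ x hx hxZ hxy.symm
          rw [hFt x h5] at hcol
          exact absurd hcol h6
        · simp only [hxZ, hyZ, if_false] at hcol
          exact ⟨⟨hy, hyZ⟩, hxy, hcol⟩

/-- the rooted statement with the number `k` of colours as a variable -/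
theorem extend [Finite V] (hG : IsChordal G) {k d r s : ℕ} (hrk : r ≤ k)
    (hk : k + d + 1 = r + s) (hm : ¬ HasBicliqueMinor G r s) (R : Set V) (hR : G.IsClique R)
    (hRc : R.ncard + 1 ≤ k) (f : V → Fin k) (hf : Set.InjOn f R) :
    ∃ c : V → Fin k, (∀ x ∈ R, c x = f x) ∧ (∀ x ∈ R, ∀ y, G.Adj x y → c y ≠ c x) ∧
      ∀ v, {w | G.Adj v w ∧ c w = c v}.ncard ≤ d := by
  classical
  let B : Fin k → Set V := fun i => {x | x ∈ R ∧ f x = i}
  have hsing : ∀ i, ∀ x ∈ B i, B i = {x} := by
    rintro i x ⟨hx, hxi⟩
    ext y
    constructor
    · rintro ⟨hy, hyi⟩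
      exact hf hy hx (by rw [hyi, hxi])
    · intro hyx
      have hyx' : y = x := hyx
      subst hyx'; exact ⟨hx, hxi⟩
  obtain ⟨φ, h1, h2⟩ := good_main (G := G) hG (k := k) (d := d) (r := r) (s := s) hrk
    hk hm _ Rᶜ B le_rfl
    (by
      constructor
      · rintro i ⟨x, hx⟩
        rw [hsing i x hx]
        exact Conn.singleton x
      · intro i j hij
        rw [Set.disjoint_left]
        rintro x ⟨_, h⟩ ⟨_, h'⟩
        exact hij (by rw [← h, ← h'])
      · rintro i j hij ⟨x, hx⟩ ⟨y, hy⟩
        refine ⟨x, hx, y, hy, hR hx.1 hy.1 ?_⟩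
        rintro rfl
        exact hij (by rw [← hx.2, ← hy.2]))
    (by
      intro i
      rw [Set.disjoint_left]
      rintro x hx ⟨hx', _⟩
      exact hx hx')
    (by
      by_contra hcon
      push Not at hcon
      have hsurj : (Set.univ : Set (Fin k)) ⊆ f '' R := by
        intro i _
        obtain ⟨x, hx⟩ := hcon i
        exact ⟨x, hx.1, hx.2⟩
      have h3 := Set.ncard_le_ncard hsurj (Set.toFinite _)
      have h4 := Set.ncard_image_le (f := f) (Set.toFinite R)
      rw [Set.ncard_univ, Nat.card_eq_fintype_card, Fintype.card_fin] at h3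
      omega)
  have hRt : ∀ x ∈ R, ∀ y, y ∉ R → G.Adj x y → φ y ≠ f x := fun x hx y hy hxy =>
    h1 y hy (f x) ⟨x, ⟨hx, rfl⟩, hxy.symm⟩
  have hR0 : ∀ x ∈ R, ∀ y, G.Adj x y →
      (if y ∈ R then f y else φ y) ≠ (if x ∈ R then f x else φ x) := by
    intro x hx y hxy
    rw [if_pos hx]
    by_cases hy : y ∈ R
    · rw [if_pos hy]
      intro h
      exact hxy.ne' (hf hy hx h)
    · rw [if_neg hy]
      exact hRt x hx y hy hxy
  refine ⟨fun x => if x ∈ R then f x else φ x, fun x hx => if_pos hx, hR0, ?_⟩
  intro v
  by_cases hv : v ∈ R
  · have : {w | G.Adj v w ∧ (if w ∈ R then f w else φ w) = if v ∈ R then f v else φ v} = ∅ := by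
      ext w
      constructor
      · rintro ⟨h3, h4⟩
        exact absurd h4 (hR0 v hv w h3)
      · intro h; exact absurd h (Set.notMem_empty w)
    rw [this]; simp
  · refine (Set.ncard_le_ncard ?_ (Set.toFinite _)).trans (h2 v hv)
    rintro w ⟨h3, h4⟩
    by_cases hw : w ∈ R
    · exact absurd h4.symm (hR0 w hw v h3.symm)
    · have h4' : (if w ∈ R then f w else φ w) = if v ∈ R then f v else φ v := h4
      rw [if_neg hw, if_neg hv] at h4'
      exact ⟨hw, h3, h4'⟩


end Pool.Agent.Work.MP_768e99_chordal
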