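import Pool.Agent.Work.MP_768e99_co.Main

set_option autoImplicit false
set_option linter.unusedSectionVars false
set_option linter.unusedSimpArgs false
set_option linter.unusedVariables false

namespace Pool.Agent.Work.MP_768e99_chordal

open Pool.Agent.Work.MP_768e99_co

variable {V : Type*} {G : SimpleGraph V}

/-- `G` is chordal: no induced cycle of length at least four. -/
def IsChordal (G : SimpleGraph V) : Prop :=
  ∀ n : ℕ, 4 ≤ n → IsEmpty (SimpleGraph.cycleGraph n ↪g G)

/-- a walk of length `n` inside `D` from `A` to `B` -/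
def WalkIn (G : SimpleGraph V) (D A B : Set V) (n : ℕ) (f : ℕ → V) : Prop :=
  f 0 ∈ A ∧ f n ∈ B ∧ (∀ i ≤ n, f i ∈ D) ∧ ∀ i < n, G.Adj (f i) (f (i + 1))

lemma exists_walkIn {D A B : Set V} (hD : Conn G D) (hA : (A ∩ D).Nonempty)
    (hB : (B ∩ D).Nonempty) : ∃ n f, WalkIn G D A B n f := by
  obtain ⟨a, haA, haD⟩ := hA
  obtain ⟨b, hbB, hbD⟩ := hB
  have := hD.2 {x | x ∈ D ∧ ∃ n f, WalkIn G D A {x} n f} (fun x hx => hx.1)
    ⟨a, haD, 0, fun _ => a, haA, rfl, fun _ _ => haD, fun i hi => absurd hi (Nat.not_lt_zero i)⟩
    (by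
      rintro x ⟨hxD, n, f, h1, h2, h3, h4⟩ y hyD hxy
      refine ⟨hyD, n + 1, fun i => if i ≤ n then f i else y, ?_, ?_, ?_, ?_⟩
      · simpa using h1
      · simp
      · intro i hi
        by_cases h : i ≤ n
        · simpa [h] using h3 i h
        · simpa [h] using hyD
      · intro i hi
        by_cases h : i + 1 ≤ n
        · have h' : i ≤ n := by omega
          simpa [h, h'] using h4 i (by omega)
        · have h' : i = n := by omega
          subst h'
          have h2' : f i = x := h2
          simp [h2', hxy])
  obtain ⟨_, n, f, h1, h2, h3, h4⟩ := this hbD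
  have h2' : f n = b := h2
  exact ⟨n, f, h1, by rw [h2']; exact hbB, h3, h4⟩

/-- A shortest walk is an induced path meeting `A` and `B` in its ends only. -/
lemma exists_geodesic {D A B : Set V} (hD : Conn G D) (hA : (A ∩ D).Nonempty)
    (hB : (B ∩ D).Nonempty) : ∃ n f, WalkIn G D A B n f ∧
      (∀ i, 0 < i → i ≤ n → f i ∉ A) ∧ (∀ i < n, f i ∉ B) ∧
      (∀ i j, i < j → j ≤ n → (G.Adj (f i) (f j) ↔ j = i + 1)) ∧
      (∀ i j, i < j → j ≤ n → f i ≠ f j) := by
  classical
  have hex : ∃ n, ∃ f, WalkIn G D A B n f := exists_walkIn hD hA hB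
  obtain ⟨f, hf⟩ := Nat.find_spec hex
  have hmin : ∀ m < Nat.find hex, ¬ ∃ f, WalkIn G D A B m f := fun m hm => Nat.find_min hex hm
  generalize Nat.find hex = n at *
  obtain ⟨h1, h2, h3, h4⟩ := hf
  refine ⟨n, f, ⟨h1, h2, h3, h4⟩, ?_, ?_, ?_, ?_⟩
  · intro i hi hin hiA
    refine hmin (n - i) (by omega) ⟨fun j => f (j + i), by simpa using hiA, ?_, ?_, ?_⟩
    · have : n - i + i = n := by omega
      simpa [this] using h2
    · intro j hj; exact h3 _ (by omega)
    · intro j hj
      have := h4 (j + i) (by omega)
      have e : j + i + 1 = j + 1 + i := by omega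
      rw [e] at this
      exact this
  · intro i hi hiB
    exact hmin i hi ⟨f, h1, hiB, fun j hj => h3 j (by omega), fun j hj => h4 j (by omega)⟩
  · intro i j hij hj
    constructor
    · intro hadj
      by_contra hne
      have hlt : i + 1 < j := by omega
      refine hmin (n - (j - i - 1)) (by omega)
        ⟨fun l => if l ≤ i then f l else f (l + (j - i - 1)), ?_, ?_, ?_, ?_⟩
      · simpa using h1
      · have h5 : ¬ (n - (j - i - 1) ≤ i) := by omega
        have h6 : n - (j - i - 1) + (j - i - 1) = n := by omega
        simpa only [h5, if_false, h6] using h2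
      · intro l hl
        by_cases h : l ≤ i
        · simpa [h] using h3 l (by omega)
        · simpa [h] using h3 (l + (j - i - 1)) (by omega)
      · intro l hl
        by_cases h : l + 1 ≤ i
        · have h' : l ≤ i := by omega
          simpa [h, h'] using h4 l (by omega)
        · by_cases h' : l ≤ i
          · have h'' : l = i := by omega
            subst h''
            have e : l + 1 + (j - l - 1) = j := by omega
            simpa [e] using hadj
          · have := h4 (l + (j - i - 1)) (by omega)
            have e : l + (j - i - 1) + 1 = l + 1 + (j - i - 1) := by omega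
            rw [e] at this
            simpa [h, h'] using this
    · rintro rfl
      exact h4 i (by omega)
  · intro i j hij hj heq
    refine hmin (n - (j - i)) (by omega)
      ⟨fun l => if l ≤ i then f l else f (l + (j - i)), ?_, ?_, ?_, ?_⟩
    · simpa using h1
    · by_cases h5 : n - (j - i) ≤ i
      · have h6 : n = j := by omega
        have h7 : n - (j - i) = i := by omega
        simp only [h7, le_refl, if_true]
        rw [heq, ← h6]; exact h2
      · have h6 : n - (j - i) + (j - i) = n := by omega
        simpa only [h5, if_false, h6] using h2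
    · intro l hl
      by_cases h : l ≤ i
      · simpa [h] using h3 l (by omega)
      · simpa [h] using h3 (l + (j - i)) (by omega)
    · intro l hl
      by_cases h : l + 1 ≤ i
      · have h' : l ≤ i := by omega
        simpa [h, h'] using h4 l (by omega)
      · by_cases h' : l ≤ i
        · have h'' : l = i := by omega
          subst h''
          have e : l + 1 + (j - l) = j + 1 := by omega
          have := h4 j (by omega)
          rw [← heq] at this
          simpa [e] using this
        · have := h4 (l + (j - i)) (by omega)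
          have e : l + (j - i) + 1 = l + 1 + (j - i) := by omega
          rw [e] at this
          simpa [h, h'] using this

lemma cycle_adj_val {n : ℕ} (u v : Fin n) (huv : u.val < v.val) :
    (SimpleGraph.cycleGraph n).Adj u v ↔ v.val = u.val + 1 ∨ (u.val = 0 ∧ v.val + 1 = n) := by
  rw [SimpleGraph.cycleGraph_adj']
  have hu := u.2
  have hv := v.2
  rw [Fin.sub_def, Fin.sub_def]
  simp only
  have h1 : (n - v.val + u.val) % n = n - v.val + u.val := Nat.mod_eq_of_lt (by omega)
  have h2 : (n - u.val + v.val) % n = v.val - u.val := by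
    have : n - u.val + v.val = (v.val - u.val) + n := by omega
    rw [this, Nat.add_mod_right, Nat.mod_eq_of_lt (by omega)]
  rw [h1, h2]
  omega

/-- Two induced paths with the same ends close up to an induced cycle. -/
lemma no_long_cycle (hG : IsChordal G) {m n : ℕ} (hm : 1 ≤ m) (hn : 1 ≤ n) (p g : ℕ → V)
    (pp : ∀ i j, i < j → j ≤ m → (G.Adj (p i) (p j) ↔ j = i + 1))
    (pi : ∀ i j, i < j → j ≤ m → p i ≠ p j)
    (gg : ∀ i j, i < j → j ≤ n → (G.Adj (g i) (g j) ↔ j = i + 1))
    (gi : ∀ i j, i < j → j ≤ n → g i ≠ g j)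
    (pg : ∀ i j, i ≤ m → j ≤ n → (G.Adj (p i) (g j) ↔ (i = 0 ∧ j = 0) ∨ (i = m ∧ j = n)))
    (ne : ∀ i j, i ≤ m → j ≤ n → p i ≠ g j) : False := by
  let c : Fin (m + n + 2) → V := fun i => if i.val ≤ m then p i.val else g (m + 1 + n - i.val)
  have key : ∀ u v : Fin (m + n + 2), u.val < v.val →
      (G.Adj (c u) (c v) ↔ (SimpleGraph.cycleGraph (m + n + 2)).Adj u v) ∧ c u ≠ c v := by
    intro u v huv
    have hu := u.2
    have hv := v.2
    rw [cycle_adj_val u v huv]
    by_cases h1 : v.val ≤ m
    · have h2 : u.val ≤ m := by omega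
      simp only [c, h1, h2, if_true]
      refine ⟨?_, pi _ _ huv h1⟩
      rw [pp _ _ huv h1]; omega
    · by_cases h2 : u.val ≤ m
      · simp only [c, h1, h2, if_true, if_false]
        refine ⟨?_, ne _ _ h2 (by omega)⟩
        rw [pg _ _ h2 (by omega)]; omega
      · simp only [c, h1, h2, if_false]
        have h3 : m + 1 + n - v.val < m + 1 + n - u.val := by omega
        refine ⟨?_, (gi _ _ h3 (by omega)).symm⟩
        rw [G.adj_comm, gg _ _ h3 (by omega)]; omega
  have hinj : Function.Injective c := by
    intro u v huv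
    by_contra hne
    rcases lt_or_gt_of_ne (fun h => hne (Fin.ext h) : u.val ≠ v.val) with h | h
    · exact (key u v h).2 huv
    · exact (key v u h).2 huv.symm
  refine (hG (m + n + 2) (by omega)).false ⟨⟨c, hinj⟩, ?_⟩
  intro u v
  show G.Adj (c u) (c v) ↔ _
  rcases lt_trichotomy u.val v.val with h | h | h
  · exact (key u v h).1
  · have : u = v := Fin.ext h
    subst this
    simp
  · rw [G.adj_comm, (key v u h).1, SimpleGraph.adj_comm]

end Pool.Agent.Work.MP_768e99_chordal
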